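import Pool.Agent.MP_515557_an.H11.MBasic

/-! The removal lemma from the sector estimate and the crossing lemmas. -/

set_option autoImplicit false

open MeasureTheory Set Metric Filter Topology
open scoped ENNReal

namespace Pool.Agent.MP_515557_an.H50

open Pool.Agent.MP_515557_an.H11.Mono

/-- Signed distance to the line through the origin of angle `φ`. -/
noncomputable def gg (φ : ℝ) (w : ℂ) : ℝ := w.im * Real.cos φ - w.re * Real.sin φ

/-- The line through the origin of angle `φ`. -/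
def LL (φ : ℝ) : Set ℂ := {w | gg φ w = 0}

/-- The sector between the angles `φ` and `φ + d`. -/
def Sig (φ d : ℝ) : Set ℂ := {w | 0 ≤ gg φ w ∧ gg (φ + d) w ≤ 0}

/-- The unit vector of angle `φ`. -/
noncomputable def ee (φ : ℝ) : ℂ := ⟨Real.cos φ, Real.sin φ⟩

theorem norm_ee (φ : ℝ) : ‖ee φ‖ = 1 := by
  have h : ‖ee φ‖ ^ 2 = 1 := by
    rw [Complex.sq_norm, Complex.normSq_apply]
    simp only [ee]
    nlinarith [Real.sin_sq_add_cos_sq φ]
  exact (pow_eq_one_iff_of_nonneg (norm_nonneg _) two_ne_zero).1 h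

theorem gg_rot (φ ψ : ℝ) (z : ℂ) : gg (ψ + φ) (ee ψ * z) = gg φ z := by
  simp only [gg, ee, Complex.mul_re, Complex.mul_im, Real.cos_add, Real.sin_add]
  linear_combination (z.im * Real.cos φ - z.re * Real.sin φ) * Real.sin_sq_add_cos_sq ψ

theorem gg_neg (φ : ℝ) (w : ℂ) : gg φ (-w) = -gg φ w := by
  simp only [gg, Complex.neg_re, Complex.neg_im]; ring

theorem gg_add_pi (φ : ℝ) (w : ℂ) : gg (φ + Real.pi) w = -gg φ w := by
  simp only [gg, Real.cos_add_pi, Real.sin_add_pi]; ring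

theorem continuous_gg (φ : ℝ) : Continuous (gg φ) := by
  unfold gg
  fun_prop

theorem isClosed_LL (φ : ℝ) : IsClosed (LL φ) :=
  isClosed_eq (continuous_gg φ) continuous_const

theorem isClosed_Sig (φ d : ℝ) : IsClosed (Sig φ d) :=
  (isClosed_le continuous_const (continuous_gg φ)).inter
    (isClosed_le (continuous_gg (φ + d)) continuous_const)

theorem sect_Sig {ε d : ℝ} (hs : 0 < Real.sin d) (hc : 0 < Real.cos d)
    (hsc : Real.sin d ≤ ε * Real.cos d) (φ : ℝ) :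
    Sect ε ((fun z => ee φ * z) ⁻¹' Sig φ d) := by
  have e : ∀ z : ℂ, z ∈ (fun z => ee φ * z) ⁻¹' Sig φ d ↔
      0 ≤ z.im ∧ z.im * Real.cos d ≤ z.re * Real.sin d := by
    intro z
    have h0 := gg_rot 0 φ z
    rw [add_zero] at h0
    simp only [mem_preimage, Sig, mem_ofPred_eq, h0, gg_rot]
    simp only [gg, Real.cos_zero, Real.sin_zero, mul_one, mul_zero, sub_zero, sub_nonpos]
  refine ⟨(isClosed_Sig φ d).preimage (by fun_prop), fun w hw t ht => ?_, fun w hw => ?_⟩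
  · rw [e] at hw ⊢
    simp only [Complex.smul_im, Complex.smul_re, smul_eq_mul]
    exact ⟨mul_nonneg ht.le hw.1, by nlinarith [mul_le_mul_of_nonneg_left hw.2 ht.le]⟩
  · rw [e] at hw
    obtain ⟨h1, h2⟩ := hw
    rw [abs_of_nonneg h1]
    have h3 : 0 ≤ w.re := by
      by_contra hcon
      have := mul_neg_of_neg_of_pos (not_le.1 hcon) hs
      nlinarith [mul_nonneg h1 hc.le]
    have h4 : w.im * Real.cos d ≤ (ε * w.re) * Real.cos d := by
      nlinarith [mul_le_mul_of_nonneg_left hsc h3]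
    exact le_of_mul_le_mul_right h4 hc

theorem exists_sign (a : ℕ → ℝ) (h0 : 0 ≤ a 0) :
    ∀ n : ℕ, a (n + 1) ≤ 0 → ∃ k, k < n + 1 ∧ 0 ≤ a k ∧ a (k + 1) ≤ 0 := by
  intro n
  induction n with
  | zero => intro h; exact ⟨0, by omega, h0, h⟩
  | succ n ih =>
    intro h
    rcases le_total 0 (a (n + 1)) with h1 | h1
    · exact ⟨n + 1, by omega, h1, h⟩
    · obtain ⟨k, hk, h2⟩ := ih h1
      exact ⟨k, by omega, h2⟩

theorem cover {n : ℕ} {d : ℝ} (hn : 0 < n) (hd : n * d = Real.pi) (θ : ℝ) (w : ℂ) :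
    ∃ k : Fin n, w ∈ Sig (θ + (k : ℕ) * d) d ∨ -w ∈ Sig (θ + (k : ℕ) * d) d := by
  have key : ∀ w : ℂ, 0 ≤ gg θ w → ∃ k : Fin n, w ∈ Sig (θ + (k : ℕ) * d) d := by
    intro w hw
    obtain ⟨m, rfl⟩ : ∃ m, n = m + 1 := ⟨n - 1, by omega⟩
    obtain ⟨k, hk, h1, h2⟩ := exists_sign (fun k => gg (θ + k * d) w) (by simpa using hw) m
      (by rw [hd, gg_add_pi]; linarith)
    refine ⟨⟨k, hk⟩, h1, ?_⟩
    have e : θ + (k : ℝ) * d + d = θ + ((k + 1 : ℕ) : ℝ) * d := by push_cast; ring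
    simp only
    rw [e]
    exact h2
  rcases le_total 0 (gg θ w) with h | h
  · obtain ⟨k, hk⟩ := key w h
    exact ⟨k, Or.inl hk⟩
  · obtain ⟨k, hk⟩ := key (-w) (by rw [gg_neg]; linarith)
    exact ⟨k, Or.inr hk⟩

theorem parallel {w w' : ℂ} (hw : w ≠ 0) (hw' : w' ≠ 0) (h : cr w w' = 0) :
    ∃ t : ℝ, t ≠ 0 ∧ ∀ φ, gg φ w' = t * gg φ w := by
  have hN : 0 < w.re ^ 2 + w.im ^ 2 := by
    have := Complex.normSq_pos.2 hw
    rw [Complex.normSq_apply] at this
    nlinarith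
  simp only [cr] at h
  set t := (w.re * w'.re + w.im * w'.im) / (w.re ^ 2 + w.im ^ 2) with ht
  have h1 : w'.re = t * w.re := by
    rw [ht, div_mul_eq_mul_div, eq_div_iff hN.ne']
    linear_combination (-w.im) * h
  have h2 : w'.im = t * w.im := by
    rw [ht, div_mul_eq_mul_div, eq_div_iff hN.ne']
    linear_combination w.re * h
  refine ⟨t, fun h0 => hw' ?_, fun φ => ?_⟩
  · rw [h0, zero_mul] at h1 h2
    exact Complex.ext h1 h2
  · simp only [gg]
    rw [h1, h2]; ring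

theorem three (a b c : ℝ) (w : ℂ) :
    Real.sin (c - a) * gg b w = Real.sin (c - b) * gg a w + Real.sin (b - a) * gg c w := by
  simp only [gg, Real.sin_sub]; ring

theorem eq_zero_of_two {φ ψ : ℝ} (h : Real.sin (φ - ψ) ≠ 0) {w : ℂ} (h1 : gg φ w = 0)
    (h2 : gg ψ w = 0) : w = 0 := by
  simp only [gg] at h1 h2
  have e1 : Real.sin (φ - ψ) * w.re = 0 := by
    rw [Real.sin_sub]; linear_combination (-Real.cos ψ) * h1 + Real.cos φ * h2
  have e2 : Real.sin (φ - ψ) * w.im = 0 := by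
    rw [Real.sin_sub]; linear_combination (-Real.sin ψ) * h1 + Real.sin φ * h2
  exact Complex.ext ((mul_eq_zero.1 e1).resolve_left h) ((mul_eq_zero.1 e2).resolve_left h)

theorem middle {a d c : ℝ} (hs : 0 < Real.sin d) (hd : 0 < d) (h1 : a + d ≤ c)
    (h2 : c ≤ a + Real.pi) {w : ℂ} (hw : w ∈ Sig a d) (hc : 0 ≤ gg c w) : gg c w = 0 := by
  have e := three a (a + d) c w
  have s1 : 0 ≤ Real.sin (c - a) :=
    Real.sin_nonneg_of_nonneg_of_le_pi (by linarith) (by linarith)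
  have s2 : 0 ≤ Real.sin (c - (a + d)) :=
    Real.sin_nonneg_of_nonneg_of_le_pi (by linarith) (by linarith)
  rw [add_sub_cancel_left] at e
  have p1 := mul_nonpos_of_nonneg_of_nonpos s1 hw.2
  have p2 := mul_nonneg s2 hw.1
  have p3 : Real.sin d * gg c w ≤ 0 := by linarith
  refine le_antisymm ?_ hc
  by_contra hcon
  have := mul_pos hs (not_le.1 hcon)
  linarith

theorem seg_null (x y : ℂ) : volume (segment ℝ x y) = 0 := by
  have h : (affineSpan ℝ {x, y} : AffineSubspace ℝ ℂ) ≠ ⊤ := by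
    intro hc
    have h1 := (collinear_pair ℝ x y).finrank_le_one
    rw [← direction_affineSpan, hc, AffineSubspace.direction_top, finrank_top,
      Complex.finrank_real_complex] at h1
    omega
  refine measure_mono_null ?_ (Measure.addHaar_affineSubspace volume _ h)
  rw [← convexHull_pair]
  exact convexHull_subset_affineSpan _

variable {v : ℂ → ℂ} {l : ℂ → ℝ} {M K σ : ℝ} {C : Set ℂ}

theorem isCompact_swept (h : Data v l M K) (ha : Adm v l σ C) {S : Set ℂ} (hS : IsClosed S) :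
    IsCompact (swept v C S) := by
  have e : swept v C S = (fun q : (ℂ × ℂ) × ℝ => q.1.1 + q.2 • (q.1.2 - q.1.1)) ''
      (conf v C S 0 ×ˢ Icc (0 : ℝ) 1) := by
    ext p
    simp only [swept, mem_ofPred_eq, segment_eq_image', mem_image, mem_prod]
    constructor
    · rintro ⟨g, hg, t, ht, rfl⟩
      exact ⟨(g, t), ⟨hg, ht⟩, rfl⟩
    · rintro ⟨q, ⟨hg, ht⟩, rfl⟩
      exact ⟨q.1, hg, q.2, ht, rfl⟩
  rw [e]
  exact ((isCompact_conf h ha hS (by linarith [ha.pos])).prod isCompact_Icc).image (by fun_prop)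

theorem swept_subset {R : ℝ} (hC : C ⊆ closedBall 0 R) (S : Set ℂ) :
    swept v C S ⊆ closedBall 0 R := by
  rintro p ⟨g, hg, hp⟩
  exact (convex_closedBall 0 R).segment_subset (hC hg.1) (hC hg.2.1) hp

/-- The sector estimate in a rotated sector. -/
theorem sector_rot (hS : SSector) (h : Data v l M K) (ha : Adm v l σ C) {κ ε : ℝ} (hκ : 0 < κ)
    (hκ1 : κ ≤ 1 / 10) (hε : 0 < ε) (hεκ : ε ≤ κ) (hεM : 32 * ε * M ≤ κ * σ) {m : ℂ}
    (hm : ‖m‖ = 1) {S : Set ℂ} (hSec : Sect ε ((fun z => m * z) ⁻¹' S)) {η : ℝ≥0∞} (hη : 0 < η) :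
    ∀ᶠ δ in 𝓝[>] (0 : ℝ),
      (∫⁻ x in Prod.fst '' conf v C S δ, ENNReal.ofReal (l x))
        + (∫⁻ x in Prod.snd '' conf v C S δ, ENNReal.ofReal (l x))
        ≤ ENNReal.ofReal δ * (ENNReal.ofReal (2 * (1 + 20 * κ)) * volume (swept v C S) + η) := by
  have hm0 : m ≠ 0 := by rintro rfl; simp at hm
  have hemb : MeasurableEmbedding (fun z : ℂ => m * z) :=
    (Homeomorph.mulLeft₀ m hm0).measurableEmbedding
  have hp := measurePreserving_rot hm
  have hinv : ∀ y : ℂ, m * (m⁻¹ * y) = y := fun y => mul_inv_cancel_left₀ hm0 y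
  filter_upwards [hS _ _ M K σ κ ε _ _ (h.rot hm) (ha.rot hm) hκ hκ1 hε hεκ hεM hSec η hη]
    with δ hδ
  refine le_trans (add_le_add ?_ ?_) (hδ.trans ?_)
  · rw [← hp.setLIntegral_comp_preimage_emb hemb (fun x => ENNReal.ofReal (l x))]
    refine lintegral_mono_set ?_
    rintro x ⟨g, hg, hx⟩
    refine ⟨(x, m⁻¹ * g.2), (mem_conf_rot hm S δ _).2 ?_, rfl⟩
    simp only at hx ⊢
    rw [hinv, ← hx]
    exact hg
  · rw [← hp.setLIntegral_comp_preimage_emb hemb (fun x => ENNReal.ofReal (l x))]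
    refine lintegral_mono_set ?_
    rintro x ⟨g, hg, hx⟩
    refine ⟨(m⁻¹ * g.1, x), (mem_conf_rot hm S δ _).2 ?_, rfl⟩
    simp only at hx ⊢
    rw [hinv, ← hx]
    exact hg
  · rw [← hp.measure_preimage_emb hemb (swept v C S)]
    gcongr
    rintro p ⟨g, hg, a, b, ha0, hb0, hab, rfl⟩
    refine ⟨(m * g.1, m * g.2), (mem_conf_rot hm S 0 g).1 hg, a, b, ha0, hb0, hab, ?_⟩
    simp only [Complex.real_smul]
    ring

theorem null_of_cost (ha : Adm v l σ C) {A : Set ℂ} (hA : MeasurableSet A) (hAC : A ⊆ C)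
    {c : ℝ≥0∞} (hc : c ≠ ∞)
    (hb : ∀ᶠ δ in 𝓝[>] (0 : ℝ), ∫⁻ x in A, ENNReal.ofReal (l x) ≤ ENNReal.ofReal δ * c) :
    volume A = 0 := by
  have h1 : ENNReal.ofReal σ * volume A ≤ ∫⁻ x in A, ENNReal.ofReal (l x) := by
    rw [← setLIntegral_const]
    exact setLIntegral_mono' hA fun x hx => ENNReal.ofReal_le_ofReal (ha.marg x (hAC hx))
  have h2 : Tendsto (fun δ : ℝ => ENNReal.ofReal δ * c) (𝓝[>] 0) (𝓝 0) := by
    have h3 : Tendsto (fun δ : ℝ => ENNReal.ofReal δ) (𝓝[>] 0) (𝓝 0) := by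
      have := (ENNReal.continuous_ofReal.tendsto 0).mono_left (nhdsWithin_le_nhds (s := Ioi 0))
      simpa using this
    have := ENNReal.Tendsto.mul_const h3 (Or.inr hc)
    simpa using this
  have h4 : ∫⁻ x in A, ENNReal.ofReal (l x) ≤ 0 := ge_of_tendsto h2 hb
  have h5 := le_antisymm (h1.trans h4) zero_le
  exact (mul_eq_zero.1 h5).resolve_left (ENNReal.ofReal_pos.2 ha.pos).ne'

/-- The points with a tight partner form a null set. -/
theorem tight_null (hS : SSector) (h : Data v l M K) (ha : Adm v l σ C) {κ ε d : ℝ} {n : ℕ}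
    (hκ : 0 < κ) (hκ1 : κ ≤ 1 / 10) (hε : 0 < ε) (hεκ : ε ≤ κ) (hεM : 32 * ε * M ≤ κ * σ)
    (hn : 0 < n) (hd : n * d = Real.pi) (hs : 0 < Real.sin d) (hc : 0 < Real.cos d)
    (hsc : Real.sin d ≤ ε * Real.cos d) : volume (Prod.fst '' conf v C univ 0) = 0 := by
  have hσ : (0 : ℝ) < σ / 2 := by linarith [ha.pos]
  have hk : ∀ φ : ℝ, volume (Prod.fst '' conf v C (Sig φ d) 0) = 0 ∧
      volume (Prod.snd '' conf v C (Sig φ d) 0) = 0 := by
    intro φ
    have hcp := isCompact_conf h ha (isClosed_Sig φ d) hσ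
    have hev := sector_rot hS h ha hκ hκ1 hε hεκ hεM (norm_ee φ) (sect_Sig hs hc hsc φ)
      (η := 1) one_pos
    have hfin : ENNReal.ofReal (2 * (1 + 20 * κ)) * volume (swept v C (Sig φ d)) + 1 ≠ ∞ :=
      ENNReal.add_ne_top.2 ⟨ENNReal.mul_ne_top ENNReal.ofReal_ne_top
        (isCompact_swept h ha (isClosed_Sig φ d)).measure_lt_top.ne, ENNReal.one_ne_top⟩
    constructor
    · refine null_of_cost ha (hcp.image continuous_fst).measurableSet ?_ hfin ?_
      · rintro x ⟨g, hg, rfl⟩; exact hg.1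
      · filter_upwards [hev, self_mem_nhdsWithin] with δ hδ hδ0
        exact (lintegral_mono_set (image_mono (conf_mono (le_of_lt hδ0)))).trans
          (le_self_add.trans hδ)
    · refine null_of_cost ha (hcp.image continuous_snd).measurableSet ?_ hfin ?_
      · rintro x ⟨g, hg, rfl⟩; exact hg.2.1
      · filter_upwards [hev, self_mem_nhdsWithin] with δ hδ hδ0
        exact (lintegral_mono_set (image_mono (conf_mono (le_of_lt hδ0)))).trans
          (le_add_self.trans hδ)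
  refine measure_mono_null (t := ⋃ k : Fin n, (Prod.fst '' conf v C (Sig (0 + (k : ℕ) * d) d) 0 ∪
    Prod.snd '' conf v C (Sig (0 + (k : ℕ) * d) d) 0)) ?_
    (measure_iUnion_null fun k => measure_union_null (hk _).1 (hk _).2)
  rintro x ⟨g, hg, rfl⟩
  obtain ⟨k, h1 | h1⟩ := cover hn hd 0 (g.2 - g.1)
  · exact mem_iUnion.2 ⟨k, Or.inl ⟨g, ⟨hg.1, hg.2.1, hg.2.2.1, h1, hg.2.2.2.2⟩, rfl⟩⟩
  · refine mem_iUnion.2 ⟨k, Or.inr ⟨(g.2, g.1), ⟨hg.2.1, hg.1, hg.2.2.1.symm, ?_, ?_⟩, rfl⟩⟩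
    · rwa [neg_sub] at h1
    · simp only
      rw [FF_comm, norm_sub_rev]
      exact hg.2.2.2.2

/-- Up to a null set, two swept sets meet only along parallel tight segments. -/
theorem overlap (hA : SCrossA) (hC : SCrossC) (h : Data v l M K) (ha : Adm v l σ C)
    (hT : volume (Prod.fst '' conf v C univ 0) = 0) :
    ∃ Z : Set ℂ, volume Z = 0 ∧ ∀ S S' : Set ℂ, ∀ p ∈ swept v C S, p ∈ swept v C S' → p ∉ Z →
      ∃ g ∈ conf v C S 0, p ∈ segment ℝ g.1 g.2 ∧ ∃ w' ∈ S', ∃ t : ℝ, t ≠ 0 ∧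
        ∀ φ, gg φ w' = t * gg φ (g.2 - g.1) := by
  obtain ⟨N, hN, hcross⟩ := hA v l M K σ C h ha
  refine ⟨Prod.fst '' conf v C univ 0 ∪ ⋃ x ∈ N, ⋃ y ∈ N, segment ℝ x y, ?_, ?_⟩
  · exact measure_union_null hT ((measure_biUnion_null_iff hN).2 fun x _ =>
      (measure_biUnion_null_iff hN).2 fun y _ => seg_null x y)
  · rintro S S' p ⟨g, hg, hp⟩ ⟨g', hg', hp'⟩ hZ
    have hgu := conf_mono_set (subset_univ S) hg
    have hgu' := conf_mono_set (subset_univ S') hg'
    have hpC : p ∉ C := fun hc => hZ (Or.inl (hC v l σ C ha g hgu p hp hc))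
    have ho : p ∈ openSegment ℝ g.1 g.2 :=
      mem_openSegment_of_ne_left_right (fun e => hpC (e ▸ hg.1)) (fun e => hpC (e ▸ hg.2.1)) hp
    have ho' : p ∈ openSegment ℝ g'.1 g'.2 :=
      mem_openSegment_of_ne_left_right (fun e => hpC (e ▸ hg'.1)) (fun e => hpC (e ▸ hg'.2.1)) hp'
    have hcr : cr (g.2 - g.1) (g'.2 - g'.1) = 0 := by
      by_contra hne
      obtain ⟨h1, h2⟩ := hcross g hgu g' hgu' hne p ho ho'
      exact hZ (Or.inr (mem_biUnion h1 (mem_biUnion h2 hp)))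
    obtain ⟨t, ht, hφ⟩ := parallel (sub_ne_zero.2 hg.2.2.1.symm) (sub_ne_zero.2 hg'.2.2.1.symm) hcr
    exact ⟨g, hg, hp, g'.2 - g'.1, hg'.2.2.2.1, t, ht, hφ⟩

/-- Only countably many directions sweep a set of positive area. -/
theorem bad_countable (hA : SCrossA) (hC : SCrossC) (h : Data v l M K) (ha : Adm v l σ C)
    (hT : volume (Prod.fst '' conf v C univ 0) = 0) :
    {φ : ℝ | 0 < volume (swept v C (LL φ))}.Countable := by
  obtain ⟨Z, hZ, hov⟩ := overlap hA hC h ha hT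
  have key : ∀ a : ℝ, ({φ : ℝ | 0 < volume (swept v C (LL φ))} ∩ Ioo a (a + Real.pi)).Countable := by
    intro a
    have h1 := Measure.countable_meas_pos_of_disjoint_iUnion₀ (μ := (volume : Measure ℂ))
      (As := fun φ : Ioo a (a + Real.pi) => swept v C (LL φ))
      (fun φ => (isCompact_swept h ha (isClosed_LL φ)).measurableSet.nullMeasurableSet)
      (fun φ ψ hne => by
        refine measure_mono_null ?_ hZ
        rintro p ⟨hp, hp'⟩
        by_contra hpZ
        obtain ⟨g, hg, -, w', hw', t, ht, hφ⟩ := hov _ _ p hp hp' hpZ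
        have e1 : gg φ (g.2 - g.1) = 0 := hg.2.2.2.1
        have e2 : gg ψ (g.2 - g.1) = 0 := by
          have e3 : gg ψ w' = 0 := hw'
          rw [hφ] at e3
          exact (mul_eq_zero.1 e3).resolve_left ht
        have hsin : Real.sin ((φ : ℝ) - ψ) ≠ 0 := by
          intro e
          rw [Real.sin_eq_zero_iff_of_lt_of_lt (by linarith [φ.2.1, ψ.2.2])
            (by linarith [φ.2.2, ψ.2.1])] at e
          exact hne (Subtype.ext (sub_eq_zero.1 e))
        exact sub_ne_zero.2 hg.2.2.1.symm (eq_zero_of_two hsin e1 e2))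
    refine (h1.image Subtype.val).mono ?_
    rintro φ ⟨h2, h3⟩
    exact ⟨⟨φ, h3⟩, h2, rfl⟩
  refine (countable_iUnion fun q : ℚ => key q).mono fun φ hφ => ?_
  obtain ⟨q, h1, h2⟩ := exists_rat_btwn (show φ - Real.pi < φ by linarith [Real.pi_pos])
  exact mem_iUnion.2 ⟨q, hφ, h2, by linarith⟩

theorem exists_good_angle (hA : SCrossA) (hC : SCrossC) (h : Data v l M K) (ha : Adm v l σ C)
    (hT : volume (Prod.fst '' conf v C univ 0) = 0) (d : ℝ) :
    ∃ θ : ℝ, ∀ j : ℕ, volume (swept v C (LL (θ + j * d))) = 0 := by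
  have h1 : (⋃ j : ℕ, (fun θ : ℝ => θ + j * d) ⁻¹'
      {φ : ℝ | 0 < volume (swept v C (LL φ))}).Countable :=
    countable_iUnion fun j => (bad_countable hA hC h ha hT).preimage (add_left_injective _)
  by_contra hcon
  refine not_countable_univ (h1.mono fun θ _ => ?_)
  by_contra hθ
  refine hcon ⟨θ, fun j => ?_⟩
  by_contra hj
  exact hθ (mem_iUnion.2 ⟨j, pos_iff_ne_zero.2 hj⟩)

/-- The swept sets of the sectors fit into the complement of `C`. -/
theorem sum_swept (hA : SCrossA) (hC : SCrossC) (h : Data v l M K) (ha : Adm v l σ C)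
    (hT : volume (Prod.fst '' conf v C univ 0) = 0) {R : ℝ} (hR : C ⊆ closedBall 0 R) {n : ℕ}
    {d θ : ℝ} (hd0 : 0 < d) (hd : n * d = Real.pi) (hs : 0 < Real.sin d)
    (hθ : ∀ j : ℕ, volume (swept v C (LL (θ + j * d))) = 0) :
    ∑ k : Fin n, volume (swept v C (Sig (θ + (k : ℕ) * d) d)) ≤ volume (closedBall (0 : ℂ) R \ C) := by
  obtain ⟨Z, hZ, hov⟩ := overlap hA hC h ha hT
  have hlt : ∀ k k' : Fin n, k < k' → AEDisjoint volume (swept v C (Sig (θ + (k : ℕ) * d) d))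
      (swept v C (Sig (θ + (k' : ℕ) * d) d)) := by
    intro k k' hkk
    refine measure_mono_null (t := Z ∪ ⋃ j : ℕ, swept v C (LL (θ + j * d))) ?_
      (measure_union_null hZ (measure_iUnion_null hθ))
    rintro p ⟨hp, hp'⟩
    by_cases hpZ : p ∈ Z
    · exact Or.inl hpZ
    right
    obtain ⟨g, hg, hpg, w', hw', t, ht, hφ⟩ := hov _ _ p hp hp' hpZ
    have a1 : ((k : ℕ) : ℝ) + 1 ≤ ((k' : ℕ) : ℝ) := by exact_mod_cast hkk
    have a2 : ((k' : ℕ) : ℝ) + 1 ≤ (n : ℝ) := by exact_mod_cast k'.2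
    have a3 : (0 : ℝ) ≤ ((k : ℕ) : ℝ) := Nat.cast_nonneg _
    have b1 := mul_le_mul_of_nonneg_right a1 hd0.le
    have b2 := mul_le_mul_of_nonneg_right a2 hd0.le
    have b3 := mul_nonneg a3 hd0.le
    rcases lt_or_gt_of_ne ht with ht | ht
    · have e : θ + ((k' : ℕ) : ℝ) * d + d = θ + (((k' : ℕ) + 1 : ℕ) : ℝ) * d := by push_cast; ring
      have c1 : 0 ≤ gg (θ + ((k' : ℕ) : ℝ) * d + d) (g.2 - g.1) := by
        have := hw'.2
        rw [hφ] at this
        by_contra hcon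
        have := mul_pos_of_neg_of_neg ht (not_le.1 hcon)
        linarith
      have c2 := middle hs hd0 (by linarith) (by linarith) hg.2.2.2.1 c1
      rw [e] at c2
      exact mem_iUnion.2 ⟨(k' : ℕ) + 1, g, ⟨hg.1, hg.2.1, hg.2.2.1, c2, hg.2.2.2.2⟩, hpg⟩
    · have c1 : 0 ≤ gg (θ + ((k' : ℕ) : ℝ) * d) (g.2 - g.1) := by
        have := hw'.1
        rw [hφ] at this
        exact nonneg_of_mul_nonneg_right this ht
      have c2 := middle hs hd0 (by linarith) (by linarith) hg.2.2.2.1 c1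
      exact mem_iUnion.2 ⟨(k' : ℕ), g, ⟨hg.1, hg.2.1, hg.2.2.1, c2, hg.2.2.2.2⟩, hpg⟩
  have h1 := measure_iUnion₀ (μ := (volume : Measure ℂ))
    (f := fun k : Fin n => swept v C (Sig (θ + (k : ℕ) * d) d))
    (fun k k' hne => by
      rcases lt_or_gt_of_ne hne with h2 | h2
      · exact hlt k k' h2
      · exact (hlt k' k h2).symm)
    (fun k => (isCompact_swept h ha (isClosed_Sig _ d)).measurableSet.nullMeasurableSet)
  rw [tsum_fintype] at h1
  rw [← h1]
  calc volume (⋃ k : Fin n, swept v C (Sig (θ + (k : ℕ) * d) d))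
      ≤ volume ((closedBall (0 : ℂ) R \ C) ∪ Prod.fst '' conf v C univ 0) := by
        refine measure_mono ?_
        intro p hp
        obtain ⟨k, hk⟩ := mem_iUnion.1 hp
        by_cases hpC : p ∈ C
        · obtain ⟨g, hg, hpg⟩ := hk
          exact Or.inr (hC v l σ C ha g (conf_mono_set (subset_univ _) hg) p hpg hpC)
        · exact Or.inl ⟨swept_subset hR _ hk, hpC⟩
    _ ≤ volume (closedBall (0 : ℂ) R \ C) + volume (Prod.fst '' conf v C univ 0) :=
        measure_union_le _ _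
    _ = _ := by rw [hT, add_zero]

theorem exists_mesh {ε : ℝ} (hε : 0 < ε) (hε1 : ε ≤ 1) :
    ∃ (n : ℕ) (d : ℝ), 0 < n ∧ 0 < d ∧ n * d = Real.pi ∧ 0 < Real.sin d ∧ 0 < Real.cos d ∧
      Real.sin d ≤ ε * Real.cos d := by
  obtain ⟨n, hn⟩ := exists_nat_gt (2 * Real.pi / ε)
  have hπ := Real.pi_pos
  have hn0 : (0 : ℝ) < n := lt_trans (by positivity) hn
  have hd0 : 0 < Real.pi / n := by positivity
  have hd1 : Real.pi / n ≤ ε / 2 := by
    rw [div_lt_iff₀ hε] at hn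
    rw [div_le_iff₀ hn0]
    linarith
  have hc : 1 / 2 ≤ Real.cos (Real.pi / n) := by
    have := Real.one_sub_sq_div_two_le_cos (x := Real.pi / n)
    nlinarith
  refine ⟨n, Real.pi / n, by exact_mod_cast hn0, hd0, by field_simp, ?_, by linarith, ?_⟩
  · exact Real.sin_pos_of_pos_of_lt_pi hd0 (by linarith [Real.two_le_pi])
  · have := Real.sin_le hd0.le
    nlinarith

theorem cheaper {a b : ℝ≥0∞} {c : ℝ} (hc : 0 ≤ c) (h : a + b ≤ ENNReal.ofReal (c + c)) :
    a ≤ ENNReal.ofReal c ∨ b ≤ ENNReal.ofReal c := by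
  by_contra hcon
  push Not at hcon
  have := ENNReal.add_lt_add hcon.1 hcon.2
  rw [← ENNReal.ofReal_add hc hc] at this
  exact absurd h (not_le.2 this)

theorem integral_le (h : Data v l M K) (ha : Adm v l σ C) {E : Set ℂ} (hE : MeasurableSet E)
    (hEC : E ⊆ C) {c : ℝ} (hc : 0 ≤ c)
    (hb : ∫⁻ x in E, ENNReal.ofReal (l x) ≤ ENNReal.ofReal c) : ∫ x in E, l x ≤ c := by
  rw [integral_eq_lintegral_of_nonneg_ae _ h.cont.aestronglyMeasurable]
  · exact ENNReal.toReal_le_of_le_ofReal hc hb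
  · exact (ae_restrict_iff' hE).2 (Eventually.of_forall fun x hx =>
      ha.pos.le.trans (ha.marg x (hEC hx)))

/-- The removal lemma. -/
theorem removal : SCrossA → SCrossC → SSector → SRemoval := by
  intro hA hC hS v l M K σ R C h ha hR η hη δ₀ hδ₀
  have hσ := ha.pos
  have hM := h.Mpos
  set B := (volume (closedBall (0 : ℂ) R)).toReal with hB
  set V := (volume (closedBall (0 : ℂ) R \ C)).toReal with hV
  have hBfin : volume (closedBall (0 : ℂ) R) ≠ ∞ := measure_closedBall_lt_top.ne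
  have hVfin : volume (closedBall (0 : ℂ) R \ C) ≠ ∞ :=
    ne_top_of_le_ne_top hBfin (measure_mono sdiff_subset)
  have hV0 : 0 ≤ V := ENNReal.toReal_nonneg
  have hVB : V ≤ B := ENNReal.toReal_mono hBfin (measure_mono sdiff_subset)
  have hB0 : 0 ≤ B := ENNReal.toReal_nonneg
  set κ := min (1 / 10 : ℝ) (η / (40 * (B + 1))) with hκdef
  have hκ : 0 < κ := lt_min (by norm_num) (by positivity)
  have hκ1 : κ ≤ 1 / 10 := min_le_left _ _
  have hκ2 : 40 * κ * V ≤ η := by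
    have h1 : κ ≤ η / (40 * (B + 1)) := min_le_right _ _
    rw [le_div_iff₀ (by positivity)] at h1
    nlinarith
  set ε := min κ (κ * σ / (32 * M)) with hεdef
  have hε : 0 < ε := lt_min hκ (by positivity)
  have hεκ : ε ≤ κ := min_le_left _ _
  have hεM : 32 * ε * M ≤ κ * σ := by
    have h1 : ε ≤ κ * σ / (32 * M) := min_le_right _ _
    rw [le_div_iff₀ (by positivity)] at h1
    linarith
  obtain ⟨n, d, hn, hd0, hd, hs, hc, hsc⟩ := exists_mesh hε (by linarith)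
  have hT := tight_null hS h ha hκ hκ1 hε hεκ hεM hn hd hs hc hsc
  obtain ⟨θ, hθ⟩ := exists_good_angle hA hC h ha hT d
  have hsum := sum_swept hA hC h ha hT hR hd0 hd hs hθ
  have hn0 : (0 : ℝ) < n := by exact_mod_cast hn
  have hev := eventually_all.2 fun k : Fin n =>
    sector_rot hS h ha hκ hκ1 hε hεκ hεM (norm_ee (θ + (k : ℕ) * d))
      (sect_Sig hs hc hsc (θ + (k : ℕ) * d)) (η := ENNReal.ofReal (η / n))
      (ENNReal.ofReal_pos.2 (by positivity))
  have hev2 : ∀ᶠ δ in 𝓝[>] (0 : ℝ), δ < min δ₀ (σ / 2) :=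
    nhdsWithin_le_nhds (Iio_mem_nhds (lt_min hδ₀ (by linarith)))
  obtain ⟨δ, hδ, hδ1, hδ0⟩ := (hev.and (hev2.and self_mem_nhdsWithin)).exists
  have hδ0 : 0 < δ := hδ0
  have hcp : ∀ k : Fin n, IsCompact (conf v C (Sig (θ + (k : ℕ) * d) d) δ) := fun k =>
    isCompact_conf h ha (isClosed_Sig _ d) (hδ1.trans_le (min_le_right _ _))
  have hc0 : 0 ≤ δ * (V + η) := by positivity
  have htot : (∫⁻ x in ⋃ k : Fin n, Prod.fst '' conf v C (Sig (θ + (k : ℕ) * d) d) δ,
        ENNReal.ofReal (l x))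
      + (∫⁻ x in ⋃ k : Fin n, Prod.snd '' conf v C (Sig (θ + (k : ℕ) * d) d) δ,
        ENNReal.ofReal (l x)) ≤ ENNReal.ofReal (δ * (V + η) + δ * (V + η)) := by
    refine (add_le_add (lintegral_iUnion_le _ _) (lintegral_iUnion_le _ _)).trans ?_
    rw [tsum_fintype, tsum_fintype, ← Finset.sum_add_distrib]
    refine (Finset.sum_le_sum fun k _ => hδ k).trans ?_
    rw [← Finset.mul_sum, Finset.sum_add_distrib, ← Finset.mul_sum, Finset.sum_const,
      Finset.card_univ, Fintype.card_fin, nsmul_eq_mul, ← ENNReal.ofReal_natCast,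
      ← ENNReal.ofReal_mul hn0.le, mul_div_cancel₀ _ hn0.ne']
    calc ENNReal.ofReal δ * (ENNReal.ofReal (2 * (1 + 20 * κ)) *
          ∑ k : Fin n, volume (swept v C (Sig (θ + (k : ℕ) * d) d)) + ENNReal.ofReal η)
        ≤ ENNReal.ofReal δ * (ENNReal.ofReal (2 * (1 + 20 * κ)) * ENNReal.ofReal V
          + ENNReal.ofReal η) := by
          rw [hV, ENNReal.ofReal_toReal hVfin]
          gcongr
      _ = ENNReal.ofReal (δ * (2 * (1 + 20 * κ) * V + η)) := by
          rw [← ENNReal.ofReal_mul (by positivity), ← ENNReal.ofReal_add (by positivity) hη.le,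
            ← ENNReal.ofReal_mul hδ0.le]
      _ ≤ _ := by
          refine ENNReal.ofReal_le_ofReal ?_
          nlinarith [mul_le_mul_of_nonneg_left hκ2 hδ0.le]
  have hpair : ∀ x ∈ C, ∀ y ∈ C, ¬ δ * ‖x - y‖ ^ 2 ≤ FF v x y →
      ∃ k : Fin n, (x, y) ∈ conf v C (Sig (θ + (k : ℕ) * d) d) δ ∨
        (y, x) ∈ conf v C (Sig (θ + (k : ℕ) * d) d) δ := by
    intro x hx y hy hcon
    have hne : x ≠ y := by
      rintro rfl
      exact hcon (by simp [FF_self])
    obtain ⟨k, h1 | h1⟩ := cover hn hd θ (y - x)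
    · exact ⟨k, Or.inl ⟨hx, hy, hne, h1, (not_le.1 hcon).le⟩⟩
    · refine ⟨k, Or.inr ⟨hy, hx, hne.symm, ?_, ?_⟩⟩
      · rwa [neg_sub] at h1
      · simp only
        rw [FF_comm, norm_sub_rev]
        exact (not_le.1 hcon).le
  refine ⟨δ, hδ0, (hδ1.trans_le (min_le_left _ _)).le, ?_⟩
  rcases cheaper hc0 htot with hb | hb
  · have hm : MeasurableSet (⋃ k : Fin n, Prod.fst '' conf v C (Sig (θ + (k : ℕ) * d) d) δ) :=
      MeasurableSet.iUnion fun k => ((hcp k).image continuous_fst).measurableSet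
    have hsub : (⋃ k : Fin n, Prod.fst '' conf v C (Sig (θ + (k : ℕ) * d) d) δ) ⊆ C :=
      iUnion_subset fun k => by rintro x ⟨g, hg, rfl⟩; exact hg.1
    refine ⟨_, hsub, hm, fun x hx y hy => ?_, integral_le h ha hm hsub hc0 hb⟩
    by_contra hcon
    obtain ⟨k, h1 | h1⟩ := hpair x hx.1 y hy.1 hcon
    · exact hx.2 (mem_iUnion.2 ⟨k, _, h1, rfl⟩)
    · exact hy.2 (mem_iUnion.2 ⟨k, _, h1, rfl⟩)
  · have hm : MeasurableSet (⋃ k : Fin n, Prod.snd '' conf v C (Sig (θ + (k : ℕ) * d) d) δ) :=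
      MeasurableSet.iUnion fun k => ((hcp k).image continuous_snd).measurableSet
    have hsub : (⋃ k : Fin n, Prod.snd '' conf v C (Sig (θ + (k : ℕ) * d) d) δ) ⊆ C :=
      iUnion_subset fun k => by rintro x ⟨g, hg, rfl⟩; exact hg.2.1
    refine ⟨_, hsub, hm, fun x hx y hy => ?_, integral_le h ha hm hsub hc0 hb⟩
    by_contra hcon
    obtain ⟨k, h1 | h1⟩ := hpair x hx.1 y hy.1 hcon
    · exact hy.2 (mem_iUnion.2 ⟨k, _, h1, rfl⟩)
    · exact hx.2 (mem_iUnion.2 ⟨k, _, h1, rfl⟩)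

end Pool.Agent.MP_515557_an.H50
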